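import Pool.Agent.Helper79.KM.Defs

/-!
Block E: the numbers of the surfaces `w ^ n = y ^ a + x ^ b + ...`, `n = r ^ e`.
-/

set_option autoImplicit false

namespace Pool.Agent.Helper65.KM

open Pool.Agent.Helper79.KM (IsSep)

/-- The number of pairs `(i, j)`, `0 < i < a`, `0 < j < b`, with `[i / a + j / b + s / n] = 2 - p`. -/
def spec (a b n s : ℕ) (p : ℤ) : ℕ :=
  (((Finset.range a) ×ˢ (Finset.range b)).filter fun z =>
    0 < z.1 ∧ 0 < z.2 ∧ (((z.1 * b * n + z.2 * a * n + s * a * b) / (a * b * n) : ℕ) : ℤ) = 2 - p).card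

/-- `x` is near a multiple of `n`. -/
def Nr (M n : ℕ) (x : ℤ) : Prop := ∃ y : ℤ, (n : ℤ) ∣ x - y ∧ |y| * M < n

theorem Nr_of {M n : ℕ} {x x' : ℤ} (h : (n : ℤ) ∣ x' - x) (hx : Nr M n x) : Nr M n x' := by
  obtain ⟨y, h1, h2⟩ := hx
  refine ⟨y, ?_, h2⟩
  have := dvd_add h h1
  rwa [show x' - x + (x - y) = x' - y by ring] at this

theorem Nr_congr {M n : ℕ} {x x' : ℤ} (h : (n : ℤ) ∣ x' - x) : Nr M n x ↔ Nr M n x' :=
  ⟨Nr_of h, Nr_of (by rw [← neg_sub]; exact h.neg_right)⟩

theorem Nr_neg {M n : ℕ} {x : ℤ} (h : Nr M n x) : Nr M n (-x) := by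
  obtain ⟨y, h1, h2⟩ := h
  refine ⟨-y, ?_, by rwa [abs_neg]⟩
  rw [show -x - -y = -(x - y) by ring]
  exact h1.neg_right

theorem Nr_scale {M n k : ℕ} (hk : 0 < k) (x : ℤ) : Nr M (k * n) (k * x) ↔ Nr M n x := by
  have hk' : (0 : ℤ) < k := by exact_mod_cast hk
  constructor
  · rintro ⟨y, h1, h2⟩
    rw [Nat.cast_mul] at h1 h2
    have h3 : (k : ℤ) ∣ y := by
      have : (k : ℤ) ∣ k * x - y := dvd_trans (dvd_mul_right _ _) h1
      exact (dvd_sub_right (dvd_mul_right _ _)).1 this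
    obtain ⟨z, rfl⟩ := h3
    refine ⟨z, ?_, ?_⟩
    · rw [← mul_sub] at h1
      exact Int.dvd_of_mul_dvd_mul_left hk'.ne' h1
    · rw [abs_mul, abs_of_pos hk', mul_assoc] at h2
      exact lt_of_mul_lt_mul_left h2 hk'.le
  · rintro ⟨y, h1, h2⟩
    refine ⟨k * y, ?_, ?_⟩
    · rw [Nat.cast_mul, ← mul_sub]
      exact mul_dvd_mul_left _ h1
    · rw [abs_mul, abs_of_pos hk', Nat.cast_mul, mul_assoc]
      exact mul_lt_mul_of_pos_left h2 hk'

theorem Nr_nat {M n s : ℕ} (hM : 0 < M) (hs : s < n) : Nr M n s ↔ (s * M < n ∨ (n - s) * M < n) := by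
  have hM' : (1 : ℤ) ≤ M := by exact_mod_cast hM
  constructor
  · rintro ⟨y, ⟨c, hc⟩, h2⟩
    have hy : |y| < n := by nlinarith [abs_nonneg y]
    have hy' := abs_lt.1 hy
    have hs' : (s : ℤ) < n := by exact_mod_cast hs
    have hs0 : (0 : ℤ) ≤ s := by positivity
    have hn : (0 : ℤ) < n := by omega
    have hc0 : -1 < c := by
      by_contra hcon
      have : c ≤ -1 := by omega
      nlinarith
    have hc1 : c < 2 := by
      by_contra hcon
      have : 2 ≤ c := by omega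
      nlinarith
    have hc' : c = 0 ∨ c = 1 := by omega
    rcases hc' with rfl | rfl
    · left
      have : y = s := by linarith
      rw [this, abs_of_nonneg hs0] at h2
      exact_mod_cast h2
    · right
      have : y = s - n := by linarith
      rw [this, abs_of_nonpos (by linarith), neg_sub] at h2
      have h3 : ((n - s : ℕ) : ℤ) = (n : ℤ) - s := by push_cast [hs.le]; ring
      rw [← h3] at h2
      exact_mod_cast h2
  · rintro (h | h)
    · exact ⟨s, by simp, by rw [abs_of_nonneg (by positivity)]; exact_mod_cast h⟩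
    · refine ⟨(s : ℤ) - n, by simp, ?_⟩
      rw [abs_of_nonpos (by omega), neg_sub]
      have : ((n - s : ℕ) : ℤ) = (n : ℤ) - s := by push_cast [hs.le]; ring
      rw [← this]
      exact_mod_cast h

/-- An inverse modulo a power. -/
theorem exists_inv {v m r : ℕ} (hr : r.Prime) (hm : 0 < m) (hv : ¬ r ∣ v) :
    ∃ w : ℕ, ¬ r ∣ w ∧ ((r ^ m : ℕ) : ℤ) ∣ v * w - 1 := by
  have hco : Nat.Coprime v (r ^ m) := ((Nat.Prime.coprime_iff_not_dvd hr).2 hv).symm.pow_right m
  have h1 : 1 < r ^ m := Nat.one_lt_pow hm.ne' hr.one_lt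
  obtain ⟨w, -, hw⟩ := Nat.exists_mul_mod_eq_one_of_coprime hco h1
  have h2 : ((r ^ m : ℕ) : ℤ) ∣ v * w - 1 := by
    have h3 : ((v * w : ℕ) : ℤ) = ((r ^ m : ℕ) : ℤ) * ((v * w / r ^ m : ℕ) : ℤ) + 1 := by
      have := Nat.div_add_mod (v * w) (r ^ m)
      rw [hw] at this
      exact_mod_cast this.symm
    rw [Nat.cast_mul] at h3
    rw [h3]
    simp
  refine ⟨w, fun h => ?_, h2⟩
  have h4 : (r : ℤ) ∣ v * w - 1 := dvd_trans (by exact_mod_cast dvd_pow_self r hm.ne') h2
  have h5 : (r : ℤ) ∣ v * w := dvd_mul_of_dvd_right (by exact_mod_cast h) _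
  have h6 : (r : ℤ) ∣ 1 := by
    have := dvd_sub h5 h4
    simpa using this
  exact hr.one_lt.ne' (by exact_mod_cast Int.eq_one_of_dvd_one (by positivity) h6)

/-- Separation, normalised. -/
theorem sep_norm {M r m m' : ℕ} (hM : 9 ≤ M) (hr : r.Prime) (hrM : 2 * M < r) (hm' : 0 < m') (hmm : m' ≤ m)
    {v v' : ℕ} (hv : ¬ r ∣ v) (hv' : ¬ r ∣ v') (h1 : 2 * v < r ^ m) (h2 : 2 * v' < r ^ m') (hne : m' = m → v ≠ v') :
    ∃ t : ℕ, ¬ r ∣ t ∧ ¬ (Nr M (r ^ m) ((t : ℤ) * v) ↔ Nr M (r ^ m') ((t : ℤ) * v')) := by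
  by_contra hcon
  push Not at hcon
  obtain ⟨w, hw, hvw⟩ := exists_inv hr (lt_of_lt_of_le hm' hmm) hv
  have hdv : ((r ^ m' : ℕ) : ℤ) ∣ ((r ^ m : ℕ) : ℤ) := by exact_mod_cast pow_dvd_pow r hmm
  have hrr : ((r : ℕ) : ℤ) ∣ ((r ^ m' : ℕ) : ℤ) := by exact_mod_cast dvd_pow_self r hm'.ne'
  -- `s` near iff `s w v'` near
  have key : ∀ s : ℕ, ¬ r ∣ s → (Nr M (r ^ m) (s : ℤ) ↔ Nr M (r ^ m') ((s : ℤ) * (w * v'))) := by
    intro s hs
    have h3 := hcon (w * s) (fun h => (hr.dvd_mul.1 h).elim hw hs)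
    have h4 : Nr M (r ^ m) (((w * s : ℕ) : ℤ) * v) ↔ Nr M (r ^ m) (s : ℤ) := by
      refine Nr_congr ?_
      have : (s : ℤ) - ((w * s : ℕ) : ℤ) * v = -(s * (v * w - 1)) := by push_cast; ring
      rw [this]
      exact (dvd_mul_of_dvd_right hvw _).neg_right
    rw [← h4, h3]
    push_cast
    rw [show (w : ℤ) * s * v' = s * (w * v') by ring]
  have hpos : 0 < r ^ m := Nat.pow_pos hr.pos
  have hpos' : 0 < r ^ m' := Nat.pow_pos hr.pos
  have hrm : r ≤ r ^ m := Nat.le_self_pow (by omega) r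
  have hrm' : r ≤ r ^ m' := Nat.le_self_pow (by omega) r
  have h1near : Nr M (r ^ m) ((1 : ℕ) : ℤ) := (Nr_nat (by omega) (by omega)).2 (Or.inl (by omega))
  rcases hmm.lt_or_eq with hlt | heq
  · -- different orders
    obtain ⟨d, rfl⟩ : ∃ d, m = m' + d := ⟨m - m', by omega⟩
    have hd : 0 < d := by omega
    have hR : r ≤ r ^ d := Nat.le_self_pow (by omega) r
    obtain ⟨c, hc⟩ : ∃ c, r ^ d = 2 * c + 1 := by
      have : Odd (r ^ d) := (hr.odd_of_ne_two (by omega)).pow
      exact this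
    have hcc : 9 ≤ c := by omega
    have h3 := (key 1 (fun h => hr.one_lt.ne' (Nat.dvd_one.1 h))).1 h1near
    have hs : ¬ r ∣ 1 + r ^ m' * c := by
      intro h
      have h5 : r ∣ r ^ m' * c := dvd_mul_of_dvd_left (dvd_pow_self r hm'.ne') _
      exact hr.one_lt.ne' (Nat.dvd_one.1 ((Nat.dvd_add_left h5).1 h))
    have h4 : Nr M (r ^ m') (((1 + r ^ m' * c : ℕ) : ℤ) * (w * v')) := by
      refine Nr_of ?_ h3
      have : ((1 + r ^ m' * c : ℕ) : ℤ) * (w * v') - ((1 : ℕ) : ℤ) * (w * v') =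
          ((r ^ m' : ℕ) : ℤ) * (c * (w * v')) := by push_cast; ring
      rw [this]
      exact dvd_mul_right _ _
    have h5 := (key _ hs).2 h4
    have hle : 1 + r ^ m' * c < r ^ (m' + d) := by
      rw [pow_add, hc]
      nlinarith
    have h6 := (Nr_nat (by omega) hle).1 h5
    have h7 : r ^ (m' + d) = r ^ m' * (2 * c + 1) := by rw [pow_add, hc]
    have h8 : r ^ m' * c ≤ r ^ (m' + d) - (1 + r ^ m' * c) := by
      rw [h7]
      have : r ^ m' * (2 * c + 1) = r ^ m' * c + r ^ m' * c + r ^ m' := by ring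
      omega
    rcases h6 with h6 | h6
    · rw [h7] at h6
      nlinarith
    · have h9 : r ^ m' * c * M ≤ (r ^ (m' + d) - (1 + r ^ m' * c)) * M := Nat.mul_le_mul_right _ h8
      have h10 : r ^ m' * c * M < r ^ m' * (2 * c + 1) := by
        rw [← h7]
        exact lt_of_le_of_lt h9 h6
      nlinarith
  · subst heq
    -- the same order
    obtain ⟨y, hy, hyM⟩ := (key 1 (fun h => hr.one_lt.ne' (Nat.dvd_one.1 h))).1 h1near
    have hy' : ((r ^ m' : ℕ) : ℤ) ∣ (w : ℤ) * v' - y := by simpa using hy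
    have hy0 : y ≠ 0 := by
      rintro rfl
      rw [sub_zero] at hy'
      have : (r : ℤ) ∣ ((w * v' : ℕ) : ℤ) := by
        push_cast
        exact dvd_trans hrr hy'
      exact (hr.dvd_mul.1 (by exact_mod_cast this)).elim hw hv'
    have hy1 : y ≠ 1 := by
      rintro rfl
      -- `v' = v`
      have h3 : ((r ^ m' : ℕ) : ℤ) ∣ (v : ℤ) * (w * v' - 1) - v' * (v * w - 1) :=
        dvd_sub (dvd_mul_of_dvd_right hy' _) (dvd_mul_of_dvd_right hvw _)
      rw [show (v : ℤ) * (w * v' - 1) - v' * (v * w - 1) = v' - v by ring] at h3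
      have h4 : (v' : ℤ) - v = 0 := Int.eq_zero_of_abs_lt_dvd h3 (by
        rw [abs_lt]
        have e1 : (2 * v : ℤ) < ((r ^ m' : ℕ) : ℤ) := by exact_mod_cast h1
        have e2 : (2 * v' : ℤ) < ((r ^ m' : ℕ) : ℤ) := by exact_mod_cast h2
        constructor <;> linarith [Int.natCast_nonneg v, Int.natCast_nonneg v'])
      exact hne rfl (by omega)
    have hym1 : y ≠ -1 := by
      rintro rfl
      have h3 : ((r ^ m' : ℕ) : ℤ) ∣ (v : ℤ) * (w * v' - -1) - v' * (v * w - 1) :=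
        dvd_sub (dvd_mul_of_dvd_right hy' _) (dvd_mul_of_dvd_right hvw _)
      rw [show (v : ℤ) * (w * v' - -1) - v' * (v * w - 1) = v' + v by ring] at h3
      have h4 : (v' : ℤ) + v = 0 := Int.eq_zero_of_abs_lt_dvd h3 (by
        rw [abs_lt]
        have e1 : (2 * v : ℤ) < ((r ^ m' : ℕ) : ℤ) := by exact_mod_cast h1
        have e2 : (2 * v' : ℤ) < ((r ^ m' : ℕ) : ℤ) := by exact_mod_cast h2
        constructor <;> linarith [Int.natCast_nonneg v, Int.natCast_nonneg v'])
      exact hv (by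
        have : v = 0 := by omega
        simp [this])
    -- the absolute value
    obtain ⟨q, hq⟩ : ∃ q : ℕ, |y| = q := ⟨y.natAbs, by rw [Int.abs_eq_natAbs]⟩
    have hq2 : 2 ≤ q := by
      have : (0 : ℤ) < |y| := abs_pos.2 hy0
      by_contra hq2
      have h3 : q = 1 := by omega
      rw [h3] at hq
      rcases (abs_eq (by norm_num)).1 hq with h | h
      · exact hy1 (by exact_mod_cast h)
      · exact hym1 (by exact_mod_cast h)
    have hqM : q * M < r ^ m' := by
      rw [hq] at hyM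
      exact_mod_cast hyM
    have key2 : ∀ s : ℕ, ¬ r ∣ s → Nr M (r ^ m') (s : ℤ) → Nr M (r ^ m') ((s * q : ℕ) : ℤ) := by
      intro s hs h3
      have h4 := (key s hs).1 h3
      have h5 : Nr M (r ^ m') ((s : ℤ) * y) := by
        refine Nr_of ?_ h4
        rw [show (s : ℤ) * y - s * (w * v') = -(s * (w * v' - y)) by ring]
        exact (dvd_mul_of_dvd_right hy' _).neg_right
      rw [Nat.cast_mul, ← hq]
      rcases abs_choice y with h6 | h6 <;> rw [h6]
      · exact h5
      · rw [mul_neg]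
        exact Nr_neg h5
    -- the first multiple that is not near
    have hfar : ∀ s : ℕ, ¬ r ∣ s → s * M < r ^ m' → r ^ m' ≤ s * q * M → s * q * M + r ^ m' < r ^ m' * M → False := by
      intro s hs h3 h4 h5
      have h6 := key2 s hs ((Nr_nat (by omega) (by nlinarith)).2 (Or.inl h3))
      have hlt : s * q < r ^ m' := by nlinarith
      rcases (Nr_nat (by omega) hlt).1 h6 with h7 | h7
      · omega
      · have h8 : (r ^ m' - s * q) * M = r ^ m' * M - s * q * M := Nat.sub_mul _ _ _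
        omega
    set n := r ^ m' with hn
    set s₀ := n / (q * M) + 1 with hs₀
    have hqMpos : 0 < q * M := by positivity
    have e1 : n < s₀ * (q * M) := by
      have := Nat.lt_mul_div_succ n hqMpos
      rw [hs₀, mul_comm]
      exact this
    have e2 : s₀ * (q * M) ≤ n + q * M := by
      have := Nat.div_mul_le_self n (q * M)
      rw [hs₀]
      nlinarith
    have e3 : s₀ * q * M = s₀ * (q * M) := by ring
    have e4 : 2 * (s₀ * M) ≤ s₀ * (q * M) := by nlinarith [Nat.zero_le (s₀ * M)]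
    by_cases hs : r ∣ s₀
    · have h3 : r ≤ s₀ := Nat.le_of_dvd (Nat.succ_pos _) hs
      have h4 : ¬ r ∣ s₀ + 1 := by
        intro h
        exact hr.one_lt.ne' (Nat.dvd_one.1 ((Nat.dvd_add_right hs).1 h))
      refine hfar (s₀ + 1) h4 ?_ ?_ ?_
      · nlinarith
      · nlinarith
      · nlinarith
    · refine hfar s₀ hs ?_ ?_ ?_
      · nlinarith
      · nlinarith
      · nlinarith

/-! ### counting -/

/-- the index set -/
def I (a b : ℕ) : Finset (ℕ × ℕ) := ((Finset.range a) ×ˢ (Finset.range b)).filter fun z => 0 < z.1 ∧ 0 < z.2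

/-- `a b (i / a + j / b)` -/
def D (a b : ℕ) (z : ℕ × ℕ) : ℕ := z.1 * b + z.2 * a

theorem mem_I {a b : ℕ} {z : ℕ × ℕ} : z ∈ I a b ↔ 0 < z.1 ∧ z.1 < a ∧ 0 < z.2 ∧ z.2 < b := by
  simp only [I, Finset.mem_filter, Finset.mem_product, Finset.mem_range]
  tauto

theorem D_lt {a b : ℕ} {z : ℕ × ℕ} (h : z ∈ I a b) : D a b z + a + b ≤ 2 * (a * b) := by
  rw [mem_I] at h
  obtain ⟨h1, h2, h3, h4⟩ := h
  have e1 : (z.1 + 1) * b ≤ a * b := Nat.mul_le_mul_right _ h2
  have e2 : (z.2 + 1) * a ≤ b * a := Nat.mul_le_mul_right _ h4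
  unfold D
  nlinarith

theorem D_ne {a b : ℕ} (hab : Nat.Coprime a b) {z : ℕ × ℕ} (h : z ∈ I a b) : D a b z ≠ a * b := by
  rw [mem_I] at h
  obtain ⟨h1, h2, h3, h4⟩ := h
  intro h5
  unfold D at h5
  have h6 : a ∣ z.1 * b := by
    have h7 : a ∣ z.1 * b + z.2 * a := by rw [h5]; exact dvd_mul_right _ _
    exact (Nat.dvd_add_left (dvd_mul_left _ _)).1 h7
  have h8 : a ∣ z.1 := hab.dvd_of_dvd_mul_right h6
  exact absurd (Nat.le_of_dvd h1 h8) (by omega)

/-- the parts -/
def P (a b : ℕ) : Finset (ℕ × ℕ) := (I a b).filter fun z => D a b z < a * b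
def Q (a b : ℕ) : Finset (ℕ × ℕ) := (I a b).filter fun z => a * b < D a b z

theorem inv_mem {a b : ℕ} {z : ℕ × ℕ} (h : z ∈ I a b) : (a - z.1, b - z.2) ∈ I a b := by
  rw [mem_I] at h ⊢
  simp only
  omega

theorem D_inv {a b : ℕ} {z : ℕ × ℕ} (h : z ∈ I a b) : D a b (a - z.1, b - z.2) + D a b z = 2 * (a * b) := by
  rw [mem_I] at h
  obtain ⟨h1, h2, h3, h4⟩ := h
  unfold D
  simp only
  obtain ⟨c, hc⟩ : ∃ c, a = z.1 + c := ⟨a - z.1, by omega⟩
  obtain ⟨d, hd⟩ : ∃ d, b = z.2 + d := ⟨b - z.2, by omega⟩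
  rw [show a - z.1 = c by omega, show b - z.2 = d by omega]
  rw [hc, hd]
  ring

theorem card_PQ (a b : ℕ) : (P a b).card = (Q a b).card := by
  refine Finset.card_bij' (fun z _ => (a - z.1, b - z.2)) (fun z _ => (a - z.1, b - z.2)) ?_ ?_ ?_ ?_
  · intro z hz
    rw [P, Finset.mem_filter] at hz
    rw [Q, Finset.mem_filter]
    refine ⟨inv_mem hz.1, ?_⟩
    have := D_inv hz.1
    omega
  · intro z hz
    rw [Q, Finset.mem_filter] at hz
    rw [P, Finset.mem_filter]
    refine ⟨inv_mem hz.1, ?_⟩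
    have := D_inv hz.1
    omega
  · intro z hz
    rw [P, Finset.mem_filter, mem_I] at hz
    ext <;> simp only <;> omega
  · intro z hz
    rw [Q, Finset.mem_filter, mem_I] at hz
    ext <;> simp only <;> omega

/-- the pair with `i / a + j / b = 1 - 1 / (a b)` -/
theorem exists_last {a b : ℕ} (ha : 3 ≤ a) (hb : 3 ≤ b) (hab : Nat.Coprime a b) :
    ∃ z ∈ I a b, D a b z + 1 = a * b := by
  -- `i b + 1` is divisible by `a`
  obtain ⟨m, hm, h1⟩ := Nat.exists_mul_mod_eq_one_of_coprime hab.symm (by omega : 1 < a)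
  have hm0 : 0 < m := by
    rcases Nat.eq_zero_or_pos m with h | h
    · rw [h] at h1; simp at h1
    · exact h
  have h2 : a * (b * m / a) + 1 = b * m := by
    have := Nat.div_add_mod (b * m) a
    omega
  set c := b * m / a with hc
  have hcb : c < b := by
    by_contra hcon
    have h3 : a * b ≤ a * c := Nat.mul_le_mul_left _ (by omega)
    have h4 : b * (m + 1) ≤ b * a := Nat.mul_le_mul_left _ hm
    nlinarith
  have hc0 : 0 < c := by
    rcases Nat.eq_zero_or_pos c with h | h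
    · rw [h] at h2
      have : b * 1 ≤ b * m := Nat.mul_le_mul_left _ hm0
      omega
    · exact h
  refine ⟨(a - m, c), mem_I.2 ?_, ?_⟩
  · simp only
    omega
  · unfold D
    simp only
    have h3 : (a - m) * b = a * b - m * b := Nat.sub_mul _ _ _
    have h4 : m * b ≤ a * b := Nat.mul_le_mul_right _ hm.le
    have h5 : m * b = b * m := Nat.mul_comm _ _
    have h6 : c * a = a * c := Nat.mul_comm _ _
    omega

/-- the floor -/
def fl (a b n s : ℕ) (z : ℕ × ℕ) : ℕ := (D a b z * n + s * (a * b)) / (a * b * n)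

theorem spec_eq (a b n s : ℕ) (p : ℤ) : spec a b n s p = ((I a b).filter fun z => ((fl a b n s z : ℕ) : ℤ) = 2 - p).card := by
  unfold spec I
  rw [Finset.filter_filter]
  congr 1
  refine Finset.filter_congr fun z _ => ?_
  have : z.1 * b * n + z.2 * a * n + s * a * b = D a b z * n + s * (a * b) := by
    unfold D
    ring
  rw [this]
  unfold fl
  tauto

section count

variable {a b n s : ℕ}

theorem fl_lt_three (ha : 0 < a) (hb : 0 < b) (hn : 0 < n) (hs : s < n) {z : ℕ × ℕ} (hz : z ∈ I a b) :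
    fl a b n s z < 3 := by
  have hN : 0 < a * b := Nat.mul_pos ha hb
  unfold fl
  rw [Nat.div_lt_iff_lt_mul (Nat.mul_pos hN hn)]
  have h1 := D_lt hz
  have h2 : D a b z * n ≤ 2 * (a * b) * n := Nat.mul_le_mul_right _ (by omega)
  have h3 : s * (a * b) < n * (a * b) := Nat.mul_lt_mul_of_pos_right hs hN
  nlinarith

theorem fl_zero (ha : 0 < a) (hb : 0 < b) (hn : 0 < n) (z : ℕ × ℕ) :
    fl a b n s z = 0 ↔ D a b z * n + s * (a * b) < a * b * n := by
  have hN : 0 < a * b := Nat.mul_pos ha hb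
  unfold fl
  rw [Nat.div_eq_zero_iff_lt (Nat.mul_pos hN hn)]

theorem fl_two (ha : 0 < a) (hb : 0 < b) (hn : 0 < n) (hs : s < n) {z : ℕ × ℕ} (hz : z ∈ I a b) :
    fl a b n s z = 2 ↔ 2 * (a * b * n) ≤ D a b z * n + s * (a * b) := by
  have hN : 0 < a * b := Nat.mul_pos ha hb
  have h3 := fl_lt_three ha hb hn hs hz
  constructor
  · intro h
    have : 2 ≤ fl a b n s z := h.ge
    unfold fl at this
    rwa [Nat.le_div_iff_mul_le (Nat.mul_pos hN hn)] at this
  · intro h
    have : 2 ≤ fl a b n s z := by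
      unfold fl
      rwa [Nat.le_div_iff_mul_le (Nat.mul_pos hN hn)]
    omega

theorem spec_two : spec a b n s 2 = ((I a b).filter fun z => fl a b n s z = 0).card := by
  rw [spec_eq]
  congr 1
  refine Finset.filter_congr fun z _ => ?_
  omega

theorem spec_one : spec a b n s 1 = ((I a b).filter fun z => fl a b n s z = 1).card := by
  rw [spec_eq]
  congr 1
  refine Finset.filter_congr fun z _ => ?_
  omega

theorem spec_zero : spec a b n s 0 = ((I a b).filter fun z => fl a b n s z = 2).card := by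
  rw [spec_eq]
  congr 1
  refine Finset.filter_congr fun z _ => ?_
  omega

theorem spec_supp (ha : 0 < a) (hb : 0 < b) (hn : 0 < n) (hs : s < n) {p : ℤ} (hp : p ≠ 0 ∧ p ≠ 1 ∧ p ≠ 2) :
    spec a b n s p = 0 := by
  rw [spec_eq, Finset.card_eq_zero, Finset.filter_eq_empty_iff]
  intro z hz h
  have := fl_lt_three ha hb hn hs hz
  omega

theorem card_I (hab : Nat.Coprime a b) : (I a b).card = 2 * (P a b).card := by
  have h1 : I a b = P a b ∪ Q a b := by
    ext z
    rw [Finset.mem_union, P, Q, Finset.mem_filter, Finset.mem_filter]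
    constructor
    · intro h
      rcases lt_trichotomy (D a b z) (a * b) with h1 | h1 | h1
      · exact Or.inl ⟨h, h1⟩
      · exact absurd h1 (D_ne hab h)
      · exact Or.inr ⟨h, h1⟩
    · rintro (h | h)
      · exact h.1
      · exact h.1
  have h2 : Disjoint (P a b) (Q a b) := by
    rw [Finset.disjoint_left]
    intro z hz hz'
    rw [P, Finset.mem_filter] at hz
    rw [Q, Finset.mem_filter] at hz'
    omega
  rw [h1, Finset.card_union_of_disjoint h2, ← card_PQ]
  ring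

theorem total (ha : 0 < a) (hb : 0 < b) (hab : Nat.Coprime a b) (hn : 0 < n) (hs : s < n) :
    spec a b n s 0 + spec a b n s 1 + spec a b n s 2 = 2 * (P a b).card := by
  rw [← card_I hab, spec_zero, spec_one, spec_two]
  have h1 : ((I a b).filter fun z => fl a b n s z = 2) = (I a b).filter fun z => ¬ fl a b n s z = 0 ∧ ¬ fl a b n s z = 1 := by
    refine Finset.filter_congr fun z hz => ?_
    have := fl_lt_three ha hb hn hs hz
    omega
  have h2 : ((I a b).filter fun z => fl a b n s z = 1) = (I a b).filter fun z => ¬ fl a b n s z = 0 ∧ fl a b n s z = 1 := by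
    refine Finset.filter_congr fun z hz => ?_
    omega
  have e1 := Finset.card_filter_add_card_filter_not (s := I a b) (fun z => fl a b n s z = 0)
  have e2 := Finset.card_filter_add_card_filter_not (s := (I a b).filter fun z => ¬ fl a b n s z = 0)
    (fun z => fl a b n s z = 1)
  rw [Finset.filter_filter, Finset.filter_filter] at e2
  rw [h1, h2]
  omega

theorem sub_P (ha : 0 < a) (hb : 0 < b) (hn : 0 < n) :
    ((I a b).filter fun z => fl a b n s z = 0) ⊆ P a b := by
  intro z hz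
  rw [Finset.mem_filter, fl_zero ha hb hn] at hz
  rw [P, Finset.mem_filter]
  refine ⟨hz.1, ?_⟩
  by_contra hcon
  have : a * b * n ≤ D a b z * n := Nat.mul_le_mul_right _ (by omega)
  omega

theorem sub_Q (ha : 0 < a) (hb : 0 < b) (hn : 0 < n) (hs : s < n) :
    ((I a b).filter fun z => fl a b n s z = 2) ⊆ Q a b := by
  intro z hz
  rw [Finset.mem_filter] at hz
  have h1 := (fl_two ha hb hn hs hz.1).1 hz.2
  rw [Q, Finset.mem_filter]
  refine ⟨hz.1, ?_⟩
  by_contra hcon
  have h2 : D a b z * n ≤ a * b * n := Nat.mul_le_mul_right _ (by omega)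
  have h3 : s * (a * b) < n * (a * b) := Nat.mul_lt_mul_of_pos_right hs (Nat.mul_pos ha hb)
  nlinarith

/-- the numbers near an integer -/
theorem near_small (ha : 0 < a) (hb : 0 < b) (hab : Nat.Coprime a b) (hn : 0 < n) (hs : s < n) (h : s * (a * b) < n) :
    spec a b n s 2 = (P a b).card ∧ spec a b n s 0 = 0 ∧ spec a b n s 1 = (P a b).card := by
  have h2 : spec a b n s 2 = (P a b).card := by
    rw [spec_two]
    congr 1
    refine Finset.Subset.antisymm (sub_P ha hb hn) ?_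
    intro z hz
    rw [P, Finset.mem_filter] at hz
    rw [Finset.mem_filter, fl_zero ha hb hn]
    refine ⟨hz.1, ?_⟩
    have h3 : (D a b z + 1) * n ≤ a * b * n := Nat.mul_le_mul_right _ hz.2
    rw [add_mul, one_mul] at h3
    omega
  have h0 : spec a b n s 0 = 0 := by
    rw [spec_zero, Finset.card_eq_zero, Finset.filter_eq_empty_iff]
    intro z hz h4
    have h5 := (fl_two ha hb hn hs hz).1 h4
    have h6 := D_lt hz
    have h7 : (D a b z + 1) * n ≤ 2 * (a * b) * n := Nat.mul_le_mul_right _ (by omega)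
    rw [add_mul, one_mul] at h7
    nlinarith
  have := total ha hb hab hn hs
  omega

theorem near_large (ha : 0 < a) (hb : 0 < b) (hab : Nat.Coprime a b) (hn : 0 < n) (hs : s < n)
    (h : (n - s) * (a * b) < n) :
    spec a b n s 2 = 0 ∧ spec a b n s 0 = (P a b).card ∧ spec a b n s 1 = (P a b).card := by
  have hsub : (n - s) * (a * b) = n * (a * b) - s * (a * b) := Nat.sub_mul _ _ _
  have hle : s * (a * b) ≤ n * (a * b) := Nat.mul_le_mul_right _ hs.le
  have hcomm : n * (a * b) = a * b * n := Nat.mul_comm _ _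
  have h0 : spec a b n s 0 = (P a b).card := by
    rw [card_PQ, spec_zero]
    congr 1
    refine Finset.Subset.antisymm (sub_Q ha hb hn hs) ?_
    intro z hz
    rw [Q, Finset.mem_filter] at hz
    rw [Finset.mem_filter, fl_two ha hb hn hs hz.1]
    refine ⟨hz.1, ?_⟩
    have h3 : (a * b + 1) * n ≤ D a b z * n := Nat.mul_le_mul_right _ hz.2
    rw [add_mul, one_mul] at h3
    omega
  have h2 : spec a b n s 2 = 0 := by
    rw [spec_two, Finset.card_eq_zero, Finset.filter_eq_empty_iff]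
    intro z hz h4
    rw [fl_zero ha hb hn] at h4
    have h5 : 0 < D a b z := by
      rw [mem_I] at hz
      unfold D
      have := Nat.mul_pos hz.1 hb
      omega
    have h6 : 1 * n ≤ D a b z * n := Nat.mul_le_mul_right _ h5
    omega
  have := total ha hb hab hn hs
  omega

/-- the numbers away from the integers -/
theorem far_two (ha : 3 ≤ a) (hb : 3 ≤ b) (hab : Nat.Coprime a b) (hn : 0 < n) (h : n ≤ s * (a * b)) :
    spec a b n s 2 < (P a b).card := by
  rw [spec_two]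
  refine Finset.card_lt_card ?_
  rw [Finset.ssubset_iff_of_subset (sub_P (by omega) (by omega) hn)]
  obtain ⟨z, hz, hD⟩ := exists_last ha hb hab
  refine ⟨z, ?_, ?_⟩
  · rw [P, Finset.mem_filter]
    exact ⟨hz, by omega⟩
  · rw [Finset.mem_filter, fl_zero (by omega) (by omega) hn]
    rintro ⟨-, h1⟩
    have h2 : a * b * n = D a b z * n + n := by rw [← hD]; ring
    omega

theorem far_zero (ha : 3 ≤ a) (hb : 3 ≤ b) (hab : Nat.Coprime a b) (hn : 0 < n) (hs : s < n)
    (h : n < (n - s) * (a * b)) : spec a b n s 0 < (P a b).card := by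
  have hsub : (n - s) * (a * b) = n * (a * b) - s * (a * b) := Nat.sub_mul _ _ _
  have hle : s * (a * b) ≤ n * (a * b) := Nat.mul_le_mul_right _ hs.le
  have hcomm : n * (a * b) = a * b * n := Nat.mul_comm _ _
  rw [card_PQ, spec_zero]
  refine Finset.card_lt_card ?_
  rw [Finset.ssubset_iff_of_subset (sub_Q (by omega) (by omega) hn hs)]
  obtain ⟨z, hz, hD⟩ := exists_last ha hb hab
  have hi := D_inv hz
  refine ⟨(a - z.1, b - z.2), ?_, ?_⟩
  · rw [Q, Finset.mem_filter]
    exact ⟨inv_mem hz, by omega⟩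
  · rw [Finset.mem_filter, fl_two (by omega) (by omega) hn hs (inv_mem hz)]
    rintro ⟨-, h1⟩
    have h2 : D a b (a - z.1, b - z.2) = a * b + 1 := by omega
    rw [h2, add_mul, one_mul] at h1
    omega

/-- the adjoint numbers -/
theorem adj_near (ha : 0 < a) (hb : 0 < b) (hab : Nat.Coprime a b) (hn : 0 < n) (hs : s < n)
    (h : s * (a * b) < n ∨ (n - s) * (a * b) < n) :
    ∑ p ∈ ({0, 1, 2} : Finset ℤ), spec a b n s p * spec a b n s (p + 0) = 2 * (P a b).card ^ 2 ∧
      ∑ p ∈ ({0, 1, 2} : Finset ℤ), spec a b n s p * spec a b n s (p + 2) = 0 := by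
  have h3 : spec a b n s 3 = 0 := spec_supp ha hb hn hs (by norm_num)
  have h4 : spec a b n s 4 = 0 := spec_supp ha hb hn hs (by norm_num)
  rw [Finset.sum_insert (by decide), Finset.sum_insert (by decide), Finset.sum_singleton,
    Finset.sum_insert (by decide), Finset.sum_insert (by decide), Finset.sum_singleton]
  simp only [add_zero]
  rw [show (0 : ℤ) + 2 = 2 by norm_num, show (1 : ℤ) + 2 = 3 by norm_num, show (2 : ℤ) + 2 = 4 by norm_num, h3, h4]
  rcases h with h | h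
  · obtain ⟨e2, e0, e1⟩ := near_small ha hb hab hn hs h
    rw [e2, e0, e1]
    constructor <;> ring
  · obtain ⟨e2, e0, e1⟩ := near_large ha hb hab hn hs h
    rw [e2, e0, e1]
    constructor <;> ring

theorem adj_far (ha : 3 ≤ a) (hb : 3 ≤ b) (hab : Nat.Coprime a b) (hn : 0 < n) (hs : s < n)
    (h1 : n ≤ s * (a * b)) (h2 : n < (n - s) * (a * b))
    (hA : ∑ p ∈ ({0, 1, 2} : Finset ℤ), spec a b n s p * spec a b n s (p + 0) = 2 * (P a b).card ^ 2)
    (hB : ∑ p ∈ ({0, 1, 2} : Finset ℤ), spec a b n s p * spec a b n s (p + 2) = 0) : False := by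
  have h3 : spec a b n s 3 = 0 := spec_supp (by omega) (by omega) hn hs (by norm_num)
  have h4 : spec a b n s 4 = 0 := spec_supp (by omega) (by omega) hn hs (by norm_num)
  rw [Finset.sum_insert (by decide), Finset.sum_insert (by decide), Finset.sum_singleton] at hA hB
  simp only [add_zero] at hA
  rw [show (0 : ℤ) + 2 = 2 by norm_num, show (1 : ℤ) + 2 = 3 by norm_num, show (2 : ℤ) + 2 = 4 by norm_num, h3, h4] at hB
  have e1 := far_two ha hb hab hn h1
  have e2 := far_zero ha hb hab hn hs h2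
  have e3 := total (by omega) (by omega) hab hn hs
  have e4 : spec a b n s 0 = 0 ∨ spec a b n s 2 = 0 := by
    rw [← Nat.mul_eq_zero]
    omega
  generalize spec a b n s 0 = x at *
  generalize spec a b n s 1 = y at *
  generalize spec a b n s 2 = w at *
  generalize (P a b).card = g at *
  rcases e4 with rfl | rfl
  · obtain ⟨c, rfl⟩ : ∃ c, g = w + c := ⟨g - w, by omega⟩
    have : y = w + 2 * c := by omega
    subst this
    have : 0 < c := by omega
    nlinarith
  · obtain ⟨c, rfl⟩ : ∃ c, g = x + c := ⟨g - x, by omega⟩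
    have : y = x + 2 * c := by omega
    subst this
    have : 0 < c := by omega
    nlinarith

end count

theorem near_iff {M r e k m v t : ℕ} (hM : 0 < M) (hr : r.Prime) (he : e = k + m) :
    Nr M (r ^ m) ((t : ℤ) * v) ↔
      ((t * (r ^ k * v)) % r ^ e * M < r ^ e ∨ (r ^ e - (t * (r ^ k * v)) % r ^ e) * M < r ^ e) := by
  have hpos : 0 < r ^ e := Nat.pow_pos hr.pos
  rw [← Nr_nat hM (Nat.mod_lt _ hpos), ← Nr_scale (k := r ^ k) (Nat.pow_pos hr.pos), ← pow_add, ← he]
  refine Nr_congr ?_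
  have h1 : ((t * (r ^ k * v) : ℕ) : ℤ) = ((r ^ e : ℕ) : ℤ) * ((t * (r ^ k * v) / r ^ e : ℕ) : ℤ) +
      (((t * (r ^ k * v)) % r ^ e : ℕ) : ℤ) := by
    exact_mod_cast (Nat.div_add_mod (t * (r ^ k * v)) (r ^ e)).symm
  refine ⟨-((t * (r ^ k * v) / r ^ e : ℕ) : ℤ), ?_⟩
  have h2 : ((r ^ k : ℕ) : ℤ) * ((t : ℤ) * v) = ((t * (r ^ k * v) : ℕ) : ℤ) := by push_cast; ring
  rw [h2]
  linarith

theorem decomp {r e u : ℕ} (hr : r.Prime) (hu : 0 < u) (hu2 : 2 * u < r ^ e) :
    ∃ k m v : ℕ, e = k + m ∧ 0 < m ∧ ¬ r ∣ v ∧ u = r ^ k * v ∧ 2 * v < r ^ m := by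
  obtain ⟨k, v, hv, rfl⟩ := Nat.exists_eq_pow_mul_and_not_dvd hu.ne' r hr.one_lt.ne'
  have hv0 : 0 < v := Nat.pos_of_ne_zero fun h => hv (by rw [h]; exact dvd_zero _)
  have h1 : r ^ k < r ^ e := by
    have : r ^ k * 1 ≤ r ^ k * v := Nat.mul_le_mul_left _ hv0
    omega
  have hk : k < e := (Nat.pow_lt_pow_iff_right hr.one_lt).1 h1
  refine ⟨k, e - k, v, by omega, by omega, hv, rfl, ?_⟩
  have h2 : r ^ e = r ^ k * r ^ (e - k) := by rw [← pow_add]; congr 1; omega
  rw [h2] at hu2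
  have h3 : r ^ k * (2 * v) < r ^ k * r ^ (e - k) := by
    calc r ^ k * (2 * v) = 2 * (r ^ k * v) := by ring
      _ < _ := hu2
  exact lt_of_mul_lt_mul_left h3 (Nat.zero_le _)

theorem sep_t {M r e : ℕ} (hM : 9 ≤ M) (hr : r.Prime) (hrM : 2 * M < r) {u u' : ℕ} (hu : 0 < u) (hu2 : 2 * u < r ^ e)
    (hu' : 0 < u') (hu2' : 2 * u' < r ^ e) (hne : u ≠ u') :
    ∃ t : ℕ, Nat.Coprime t r ∧ ¬ (((t * u) % r ^ e * M < r ^ e ∨ (r ^ e - (t * u) % r ^ e) * M < r ^ e) ↔
      ((t * u') % r ^ e * M < r ^ e ∨ (r ^ e - (t * u') % r ^ e) * M < r ^ e)) := by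
  obtain ⟨k, m, v, he, hm, hv, rfl, hv2⟩ := decomp hr hu hu2
  obtain ⟨k', m', v', he', hm', hv', rfl, hv2'⟩ := decomp hr hu' hu2'
  have hcop : ∀ t : ℕ, ¬ r ∣ t → Nat.Coprime t r := fun t ht => ((Nat.Prime.coprime_iff_not_dvd hr).2 ht).symm
  rcases le_total m' m with hmm | hmm
  · obtain ⟨t, ht, h1⟩ := sep_norm hM hr hrM hm' hmm hv hv' hv2 hv2' (by
      rintro rfl rfl
      exact hne (by rw [show k = k' by omega]))
    rw [near_iff (by omega) hr he, near_iff (by omega) hr he'] at h1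
    exact ⟨t, hcop t ht, h1⟩
  · obtain ⟨t, ht, h1⟩ := sep_norm hM hr hrM hm hmm hv' hv hv2' hv2 (by
      rintro rfl rfl
      exact hne (by rw [show k = k' by omega]))
    rw [near_iff (by omega) hr he', near_iff (by omega) hr he] at h1
    exact ⟨t, hcop t ht, fun h2 => h1 h2.symm⟩

theorem asym_t {M r e : ℕ} (hM : 9 ≤ M) (hr : r.Prime) (hrM : 2 * M < r) {u : ℕ} (hu : 0 < u) (hu2 : 2 * u < r ^ e) :
    ∃ t : ℕ, Nat.Coprime t r ∧ r ^ e < (t * u) % r ^ e * M ∧ (t * u) % r ^ e * M < 2 * r ^ e := by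
  obtain ⟨k, m, v, he, hm, hv, rfl, hv2⟩ := decomp hr hu hu2
  obtain ⟨w, hw, hvw⟩ := exists_inv hr hm hv
  have hrm : r ≤ r ^ m := Nat.le_self_pow (by omega) r
  have hpos : 0 < r ^ k := Nat.pow_pos hr.pos
  -- the number `s`
  obtain ⟨s, hs, h1, h2⟩ : ∃ s, ¬ r ∣ s ∧ r ^ m < s * M ∧ s * M < 2 * r ^ m := by
    have e1 : r ^ m < (r ^ m / M + 1) * M := by
      have := Nat.lt_mul_div_succ (r ^ m) (show 0 < M by omega)
      rw [mul_comm]
      exact this
    have e2 : r ^ m / M * M ≤ r ^ m := Nat.div_mul_le_self _ _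
    by_cases hs : r ∣ r ^ m / M + 1
    · refine ⟨r ^ m / M + 1 + 1, fun h => ?_, ?_, ?_⟩
      · exact hr.one_lt.ne' (Nat.dvd_one.1 ((Nat.dvd_add_right hs).1 h))
      · nlinarith
      · nlinarith
    · exact ⟨_, hs, e1, by nlinarith⟩
  refine ⟨w * s, ((Nat.Prime.coprime_iff_not_dvd hr).2 fun h => (hr.dvd_mul.1 h).elim hw hs).symm, ?_⟩
  have hsm : s < r ^ m := by nlinarith
  have h3 : (w * s * v) % r ^ m = s := by
    have h4 : ((r ^ m : ℕ) : ℤ) ∣ ((s : ℕ) : ℤ) - ((w * s * v : ℕ) : ℤ) := by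
      have : ((s : ℕ) : ℤ) - ((w * s * v : ℕ) : ℤ) = -(s * (v * w - 1)) := by push_cast; ring
      rw [this]
      exact (dvd_mul_of_dvd_right hvw _).neg_right
    have h5 : w * s * v ≡ s [MOD r ^ m] := (Nat.modEq_iff_dvd).2 h4
    have h6 : (w * s * v) % r ^ m = s % r ^ m := h5
    rw [h6, Nat.mod_eq_of_lt hsm]
  have h4 : (w * s * (r ^ k * v)) % r ^ e = r ^ k * s := by
    rw [he, pow_add, show w * s * (r ^ k * v) = r ^ k * (w * s * v) by ring, Nat.mul_mod_mul_left, h3]
  rw [h4, he, pow_add]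
  constructor
  · calc r ^ k * r ^ m < r ^ k * (s * M) := Nat.mul_lt_mul_of_pos_left h1 hpos
      _ = _ := by ring
  · calc r ^ k * s * M = r ^ k * (s * M) := by ring
      _ < r ^ k * (2 * r ^ m) := Nat.mul_lt_mul_of_pos_left h2 hpos
      _ = _ := by ring

/-- E: the numbers of the surfaces `w ^ n = y ^ a + x ^ b + ...`, `n = r ^ e` -/
theorem isSep_spec {a b r e : ℕ} (ha : 3 ≤ a) (hb : 3 ≤ b) (hab : Nat.Coprime a b) (hr : r.Prime) (h : 2 * a * b < r)
    (he : 0 < e) : IsSep (X := {u : ℕ // 0 < u ∧ 2 * u < r ^ e}) (T := {t : ℕ // Nat.Coprime t r})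
      (fun t u p => spec a b (r ^ e) ((t.1 * u.1) % r ^ e) p) {0, 1, 2} := by
  have hn : 0 < r ^ e := Nat.pow_pos hr.pos
  have hM : 9 ≤ a * b := by nlinarith
  have hrM : 2 * (a * b) < r := by rw [← mul_assoc]; exact h
  -- `a b` does not divide `n`
  have hnd : ∀ x, r ^ e ≠ x * (a * b) := by
    intro x hx
    have h1 : a * b ∣ r ^ e := ⟨x, by rw [hx, mul_comm]⟩
    obtain ⟨i, -, hi⟩ := (Nat.dvd_prime_pow hr).1 h1
    rcases Nat.eq_zero_or_pos i with rfl | h2
    · simp at hi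
      omega
    · have := Nat.le_self_pow h2.ne' r
      omega
  refine ⟨?_, ?_, ?_⟩
  · intro t x p hp
    simp only [Finset.mem_insert, Finset.mem_singleton, not_or] at hp
    exact spec_supp (by omega) (by omega) hn (Nat.mod_lt _ hn) hp
  · rintro ⟨u, hu, hu2⟩
    obtain ⟨t, ht, h1, h2⟩ := asym_t hM hr hrM hu hu2
    refine ⟨⟨t, ht⟩, fun w => ?_⟩
    simp only
    set s := (t * u) % r ^ e with hs
    have hsn : s < r ^ e := Nat.mod_lt _ hn
    have e2 := far_two ha hb hab hn h1.le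
    have e3 := total (a := a) (b := b) (by omega) (by omega) hab hn hsn
    have e0 : spec a b (r ^ e) s 0 = 0 := by
      rw [spec_zero, Finset.card_eq_zero, Finset.filter_eq_empty_iff]
      intro z hz h4
      have h5 := (fl_two (by omega) (by omega) hn hsn hz).1 h4
      have h6 := D_lt hz
      have h7 : (D a b z + 2) * r ^ e ≤ 2 * (a * b) * r ^ e := Nat.mul_le_mul_right _ (by omega)
      nlinarith
    have e1 : 0 < spec a b (r ^ e) s 2 := by
      rw [spec_two, Finset.card_pos]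
      refine ⟨(1, 1), ?_⟩
      rw [Finset.mem_filter, fl_zero (by omega) (by omega) hn, mem_I]
      refine ⟨by simp only; omega, ?_⟩
      have h5 : D a b (1, 1) = a + b := by unfold D; simp only; ring
      rw [h5]
      have h6 : a + b + 2 ≤ a * b := by nlinarith
      have h7 : (a + b + 2) * r ^ e ≤ a * b * r ^ e := Nat.mul_le_mul_right _ h6
      nlinarith
    by_cases h3 : w = 3
    · subst h3
      exact ⟨2, by rw [show (3 : ℤ) - 2 = 1 by norm_num]; omega⟩
    by_cases h4 : w = 4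
    · subst h4
      refine ⟨1, ?_⟩
      rw [show (4 : ℤ) - 1 = 3 by norm_num, spec_supp (by omega) (by omega) hn hsn (p := 3) (by norm_num)]
      omega
    refine ⟨2, ?_⟩
    by_cases h5 : w = 2
    · subst h5
      rw [show (2 : ℤ) - 2 = 0 by norm_num, e0]
      omega
    · rw [spec_supp (by omega) (by omega) hn hsn (p := w - 2) ⟨by omega, by omega, by omega⟩]
      omega
  · rintro ⟨u, hu, hu2⟩ ⟨u', hu', hu2'⟩ hne
    have hne' : u ≠ u' := fun h => hne (by simp [h])
    obtain ⟨t, ht, h1⟩ := sep_t hM hr hrM hu hu2 hu' hu2' hne'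
    refine ⟨⟨t, ht⟩, ?_⟩
    simp only
    set s := (t * u) % r ^ e with hs
    set s' := (t * u') % r ^ e with hs'
    have hsn : s < r ^ e := Nat.mod_lt _ hn
    have hsn' : s' < r ^ e := Nat.mod_lt _ hn
    by_contra hcon
    push Not at hcon
    have c0 := hcon 0
    have c2 := hcon 2
    have main : ∀ s s' : ℕ, s < r ^ e → s' < r ^ e → (s * (a * b) < r ^ e ∨ (r ^ e - s) * (a * b) < r ^ e) →
        ¬ (s' * (a * b) < r ^ e ∨ (r ^ e - s') * (a * b) < r ^ e) →
        ∑ p ∈ ({0, 1, 2} : Finset ℤ), spec a b (r ^ e) s p * spec a b (r ^ e) s (p + 0) =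
          ∑ p ∈ ({0, 1, 2} : Finset ℤ), spec a b (r ^ e) s' p * spec a b (r ^ e) s' (p + 0) →
        ∑ p ∈ ({0, 1, 2} : Finset ℤ), spec a b (r ^ e) s p * spec a b (r ^ e) s (p + 2) =
          ∑ p ∈ ({0, 1, 2} : Finset ℤ), spec a b (r ^ e) s' p * spec a b (r ^ e) s' (p + 2) → False := by
      intro s s' hs hs' h3 h4 h5 h6
      push Not at h4
      obtain ⟨h7, h8⟩ := adj_near (by omega) (by omega) hab hn hs h3
      exact adj_far ha hb hab hn hs' h4.1 (lt_of_le_of_ne h4.2 (hnd _)) (h5.symm.trans h7) (h6.symm.trans h8)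
    by_cases h3 : s * (a * b) < r ^ e ∨ (r ^ e - s) * (a * b) < r ^ e
    · by_cases h4 : s' * (a * b) < r ^ e ∨ (r ^ e - s') * (a * b) < r ^ e
      · exact h1 ⟨fun _ => h4, fun _ => h3⟩
      · exact main s s' hsn hsn' h3 h4 c0 c2
    · by_cases h4 : s' * (a * b) < r ^ e ∨ (r ^ e - s') * (a * b) < r ^ e
      · exact main s' s hsn' hsn h4 h3 c0.symm c2.symm
      · exact h1 ⟨fun h => absurd h h3, fun h => absurd h h4⟩

end Pool.Agent.Helper65.KM
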